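import Mathlib

/-!
# BC: subspaces with a basis failing the Radon-Nikodym property in spaces of nontrivial type

Definitions. A *node* is a pair `(n, j)` (dyadic interval `[j 2⁻ⁿ, (j+1) 2⁻ⁿ)`); its descendants of
depth `m` are `(n + m, 2 ^ m * j + r)`, `r < 2 ^ m`. A *configuration* of size `t` and level `n` is
`c : Fin t → ℤ`.
-/

set_option autoImplicit false

open Finset

noncomputable section

namespace Pool.Agent.BC

section

variable {X : Type} [NormedAddCommGroup X] [NormedSpace ℝ X]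

/-- the descendants of depth `m` of the configuration `c` -/
def dt {t : ℕ} (m : ℕ) (c : Fin t → ℤ) (r : Fin t → Fin (2 ^ m)) : Fin t → ℤ :=
  fun i => 2 ^ m * c i + (r i : ℕ)

/-- the average of `G` over all the descendants of depth `m` of the configuration `c` -/
def av {V : Type} [AddCommGroup V] [Module ℝ V] {t : ℕ} (m : ℕ) (G : (Fin t → ℤ) → V)
    (c : Fin t → ℤ) : V :=
  (((2 : ℝ) ^ m) ^ t)⁻¹ • ∑ r : Fin t → Fin (2 ^ m), G (dt m c r)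

/-- the average of `g` over all the descendants of depth `m` of the node `j` -/
def av1 {V : Type} [AddCommGroup V] [Module ℝ V] (m : ℕ) (g : ℤ → V) (j : ℤ) : V :=
  ((2 : ℝ) ^ m)⁻¹ • ∑ r : Fin (2 ^ m), g (2 ^ m * j + (r : ℕ))

open Classical in
/-- the proportion of the descendants of depth `m` of `c` without the property `A` -/
def bad {t : ℕ} (m : ℕ) (A : (Fin t → ℤ) → Prop) (c : Fin t → ℤ) : ℝ :=
  av m (fun d => if A d then (0 : ℝ) else 1) c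

open Classical in
/-- the proportion of the descendants of depth `m` of `j` without the property `A` -/
def bad1 (m : ℕ) (A : ℤ → Prop) (j : ℤ) : ℝ :=
  av1 m (fun d => if A d then (0 : ℝ) else 1) j

/-- `x` is a dyadic martingale bounded by one -/
def IsT (x : ℕ → ℤ → X) : Prop :=
  (∀ n j, ‖x n j‖ ≤ 1) ∧
    ∀ n j, x n j = (2 : ℝ)⁻¹ • (x (n + 1) (2 * j) + x (n + 1) (2 * j + 1))

/-- the linear combination of the points of the configuration -/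
def J (x : ℕ → ℤ → X) {t : ℕ} (n : ℕ) (c : Fin t → ℤ) (a : Fin t → ℝ) : X :=
  ∑ i, a i • x n (c i)

/-- `κ`-stable configurations -/
def Stab (x : ℕ → ℤ → X) {t : ℕ} (κ : ℝ) (n : ℕ) (c : Fin t → ℤ) : Prop :=
  ∀ (m : ℕ) (a : Fin t → ℝ), (∀ i, |a i| ≤ 1) →
    av m (fun d => ‖J x (n + m) d a‖ ^ 2) c ≤ ‖J x n c a‖ ^ 2 + κ

/-- the oscillation of the martingale in the node `(n, j)`:
`inf_u sup_m E ‖x_{n + m} - u‖²` -/
def hh (x : ℕ → ℤ → X) (n : ℕ) (j : ℤ) : ℝ :=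
  ⨅ u : X, ⨆ m : ℕ, av1 m (fun k => ‖x (n + m) k - u‖ ^ 2) j

/-- the node is `κ`-stable for the oscillation -/
def Stw (x : ℕ → ℤ → X) (κ : ℝ) (n : ℕ) (j : ℤ) : Prop :=
  ∀ m : ℕ, av1 m (fun k => (1 - hh x (n + m) k) ^ 2) j ≤ (1 - hh x n j) ^ 2 + κ

/-- the parent of a leaf, if the leaf `s` is split into `s` and the new leaf `t` -/
def pr {t : ℕ} (s : Fin t) (i : Fin (t + 1)) : Fin t :=
  Fin.lastCases (motive := fun _ => Fin t) s (fun i => i) i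

/-- adding the coefficients of the two new leaves -/
def Rr {t : ℕ} (s : Fin t) (a : Fin (t + 1) → ℝ) : Fin t → ℝ :=
  fun i => a i.castSucc + if i = s then a (Fin.last t) else 0

/-- halving the coefficient of the split leaf -/
def io {t : ℕ} (s : Fin t) (a : Fin t → ℝ) : Fin (t + 1) → ℝ :=
  fun i => if pr s i = s then a s / 2 else a (pr s i)

/-- the potential `sup_m E ‖∑ θ_i x - r‖` -/
def QP (x : ℕ → ℤ → X) {t : ℕ} (θ : Fin t → ℝ) (r : X) (n : ℕ) (c : Fin t → ℤ) : ℝ :=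
  ⨆ m : ℕ, av m (fun d => ‖J x (n + m) d θ - r‖) c

/-- the lower norm inequality for a splitting -/
def Lo (x : ℕ → ℤ → X) {t : ℕ} (s : Fin t) (η : ℝ) (n : ℕ) (c : Fin t → ℤ) (n' : ℕ)
    (c' : Fin (t + 1) → ℤ) : Prop :=
  ∀ a : Fin (t + 1) → ℝ, (∀ i, |a i| ≤ 1) → ‖J x n c (Rr s a)‖ ≤ ‖J x n' c' a‖ + η

/-- the upper norm inequality for a splitting -/
def Up (x : ℕ → ℤ → X) {t : ℕ} (s : Fin t) (η : ℝ) (n : ℕ) (c : Fin t → ℤ) (n' : ℕ)
    (c' : Fin (t + 1) → ℤ) : Prop :=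
  ∀ a : Fin t → ℝ, (∀ i, |a i| ≤ 1) → ‖J x n' c' (io s a)‖ ≤ ‖J x n c a‖ + η

end

/-! ### The part without the martingale -/

/-- the leaf which is split at the time `t` -/
def sc (t : ℕ) : ℕ := t - 2 ^ Nat.log 2 t

/-- the combination of `v t i`, `i < t` -/
def L {X : Type} [NormedAddCommGroup X] [NormedSpace ℝ X] (v : ℕ → ℕ → X) (t : ℕ) (a : ℕ → ℝ) :
    X :=
  ∑ i ∈ range t, a i • v t i

/-- `Rr` for sequences -/
def RR (t : ℕ) (a : ℕ → ℝ) : ℕ → ℝ := fun i => a i + if i = sc t then a t else 0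

/-- `io` for sequences -/
def II (t : ℕ) (a : ℕ → ℝ) : ℕ → ℝ := fun i => if i = sc t ∨ i = t then a (sc t) / 2 else a i

/-- the weights of the leaves below the node `(k₀, j₀)` at the time `2 ^ k` -/
def wt (k k₀ j₀ : ℕ) : ℕ → ℝ := fun i => if i % 2 ^ k₀ = j₀ then ((1 : ℝ) / 2) ^ (k - k₀) else 0

/-- a system of vectors `v t i`, `i < t`, as it is produced by the construction -/
structure Sys {X : Type} [NormedAddCommGroup X] [NormedSpace ℝ X] (v : ℕ → ℕ → X) (δ : ℝ)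
    (ε : ℕ → ℝ) (M ρ : ℝ) : Prop where
  bdd : ∀ t i, i < t → ‖v t i‖ ≤ 1
  up : ∀ t, 1 ≤ t → ∀ a : ℕ → ℝ, ‖L v (t + 1) (II t a)‖ ≤ (1 + ε t) * ‖L v t a‖
  lo : ∀ t, 1 ≤ t → ∀ a : ℕ → ℝ, ‖L v t (RR t a)‖ ≤ (1 + ε t) * ‖L v (t + 1) a‖
  sep : ∀ t, 1 ≤ t → ∀ a : ℕ → ℝ, ∀ i < t, δ * |a i| ≤ ‖L v t a‖
  mov : ∀ k k₀ j₀ : ℕ, k₀ ≤ k → j₀ < 2 ^ k₀ →
    ‖L v (2 ^ (k + 1)) (wt (k + 1) k₀ j₀) - L v (2 ^ k) (wt k k₀ j₀)‖ ≤ M * 4 ^ k₀ * ρ ^ k

/-- the mean of `‖∑ ± z i‖` over the signs -/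
def sg {X : Type} [NormedAddCommGroup X] [NormedSpace ℝ X] {n : ℕ} (z : Fin n → X) : ℝ :=
  ((2 : ℝ) ^ n)⁻¹ * ∑ e : Fin n → Bool, ‖∑ i, (if e i then (1 : ℝ) else -1) • z i‖

/-- the averages with random signs of `2 ^ r` values of the martingale (of the same level) decay -/
def RC {X : Type} [NormedAddCommGroup X] [NormedSpace ℝ X] (x : ℕ → ℤ → X) (M γ : ℝ) : Prop :=
  ∀ (r n : ℕ) (c : Fin (2 ^ r) → ℤ), sg (fun i => ((1 : ℝ) / 2) ^ r • x n (c i)) ≤ M * γ ^ r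

/-- the averages of the future differences of `2 ^ r` nodes decay -/
def Ty {X : Type} [NormedAddCommGroup X] [NormedSpace ℝ X] (x : ℕ → ℤ → X) (M γ : ℝ) : Prop :=
  ∀ (r n : ℕ) (c : Fin (2 ^ r) → ℤ),
    QP x (fun _ => ((1 : ℝ) / 2) ^ r) (J x n c (fun _ => ((1 : ℝ) / 2) ^ r)) n c ≤ M * γ ^ r

/-- `X` does not contain the `ℓ₁ⁿ` uniformly (`X` is B-convex) -/
def BConvex (X : Type) [NormedAddCommGroup X] [NormedSpace ℝ X] : Prop :=
  ∃ (N : ℕ) (η : ℝ), 0 < η ∧ ∀ z : Fin N → X, (∀ i, ‖z i‖ ≤ 1) →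
    ∃ e : Fin N → Bool, ‖∑ i, (if e i then (1 : ℝ) else -1) • z i‖ ≤ N - η

end Pool.Agent.BC
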