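import Pool.Agent.BC.Defs

/-!
# BC: the statements of the modules
-/

set_option autoImplicit false

open Finset MeasureTheory Filter Topology

noncomputable section

namespace Pool.Agent.BC

/-! ### averages -/

/-- TOW: tower property. -/
def TowStmt : Prop := ∀ (V : Type) [NormedAddCommGroup V] [NormedSpace ℝ V] (m m' : ℕ),
  (∀ (t : ℕ) (G : (Fin t → ℤ) → V) (c : Fin t → ℤ),
    av (m + m') G c = av m (fun d => av m' G d) c) ∧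
  ∀ (g : ℤ → V) (j : ℤ), av1 (m + m') g j = av1 m (fun d => av1 m' g d) j

/-- MAR: marginals (for an injective reindexing, e.g. by translation invariance on
`Fin t' → ZMod (2 ^ m)`, or by `Equiv`s). -/
def MarStmt : Prop := ∀ (V : Type) [NormedAddCommGroup V] [NormedSpace ℝ V] (m : ℕ),
  (∀ (t t' : ℕ) (e : Fin t → Fin t'), Function.Injective e →
    ∀ (G : (Fin t → ℤ) → V) (c : Fin t' → ℤ), av m (fun d => G (d ∘ e)) c = av m G (c ∘ e)) ∧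
  ∀ (t : ℕ) (i : Fin t) (g : ℤ → V) (c : Fin t → ℤ), av m (fun d => g (d i)) c = av1 m g (c i)

/-- JEN: the martingale property and Jensen's inequality. -/
def JenStmt : Prop := ∀ (X : Type) [NormedAddCommGroup X] [NormedSpace ℝ X] (x : ℕ → ℤ → X),
  IsT x →
    (∀ n m j, av1 m (x (n + m)) j = x n j) ∧
    (∀ n m j (r : X), ‖x n j - r‖ ≤ av1 m (fun k => ‖x (n + m) k - r‖) j) ∧
    (∀ n m j (r : X), ‖x n j - r‖ ^ 2 ≤ av1 m (fun k => ‖x (n + m) k - r‖ ^ 2) j) ∧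
    ∀ (t n m : ℕ) (c : Fin t → ℤ) (a : Fin t → ℝ),
      av m (fun d => J x (n + m) d a) c = J x n c a ∧
      (∀ r : X, ‖J x n c a - r‖ ≤ av m (fun d => ‖J x (n + m) d a - r‖) c) ∧
      ∀ r : X, ‖J x n c a - r‖ ^ 2 ≤ av m (fun d => ‖J x (n + m) d a - r‖ ^ 2) c

/-- ISO: Jensen's inequality in all the coordinates but one. -/
def IsoStmt : Prop := ∀ (V : Type) [NormedAddCommGroup V] [NormedSpace ℝ V] (t m : ℕ)
  (Z : Fin t → ℤ → V) (c : Fin t → ℤ) (i : Fin t),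
    av1 m (fun k => ‖(∑ l ∈ univ.erase i, av1 m (Z l) (c l)) + Z i k‖ ^ 2) (c i) ≤
      av m (fun d => ‖∑ l, Z l (d l)‖ ^ 2) c

/-- SGN (replaces TYP and QTY): symmetrization. For `θ = (1/2)^r` constant:
`av m ‖J d θ - J c θ‖ ≤ av m av m ‖J d θ - J d' θ‖` (`J c θ = av m (J d' θ)`), exchange the two
copies in the coordinates with sign `-1` and average over the signs:
`= av m av m sg (θ • (x (d i) - x (d' i))) ≤ 2 * M * γ ^ r`. Then the sup over `m`. -/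
def SgnStmt : Prop := ∀ (X : Type) [NormedAddCommGroup X] [NormedSpace ℝ X] (x : ℕ → ℤ → X),
  IsT x → ∀ M γ : ℝ, RC x M γ → Ty x (2 * M) γ

/-- BCV: B-convex spaces. `a N` = least constant with `E ‖∑ ε i z i‖² ≤ a² N ∑ ‖z i‖²`; `a (N M) ≤
a N * a M` (independent outer signs), B-convexity gives `a N < 1`. -/
def BcvStmt : Prop := ∀ (X : Type) [NormedAddCommGroup X] [NormedSpace ℝ X], BConvex X →
  ∃ M γ : ℝ, 0 ≤ M ∧ 0 < γ ∧ γ < 1 ∧ ∀ (r : ℕ) (z : Fin (2 ^ r) → X), (∀ i, ‖z i‖ ≤ 1) →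
    sg (fun i => ((1 : ℝ) / 2) ^ r • z i) ≤ M * γ ^ r

/-! ### likely events -/

/-- SUP: a bounded submartingale is almost constant in the mean on the future of most nodes.
Proof: `a m = av m (F (n + m)) c` is increasing and bounded, choose `m₀` with
`sup a - a m₀ ≤ κ ε`; `D d = sup_m' av m' (F (n + m + m')) d - F (n + m) d ≥ 0` has the average
`sup a - a m` (monotone limit in a finite average), Markov. -/
def SupStmt : Prop := ∀ (t : ℕ) (F : ℕ → (Fin t → ℤ) → ℝ) (B : ℝ),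
  (∀ n c, 0 ≤ F n c ∧ F n c ≤ B) → (∀ n m c, F n c ≤ av m (F (n + m)) c) →
  ∀ (n : ℕ) (c : Fin t → ℤ) (κ ε : ℝ), 0 < κ → 0 < ε → ∃ m₀, ∀ m, m₀ ≤ m →
    bad m (fun d => ∀ m', av m' (F (n + m + m')) d ≤ F (n + m) d + κ) c ≤ ε

/-- STA: most deep descendants are stable. Finite net of the coefficients (`a` with
`a i ∈ (1/M) ℤ`, `|a i| ≤ 1`; `|‖J a‖² - ‖J a'‖²| ≤ 2 t * t / M`), SUP for `F n c = ‖J x n c a‖ ^ 2`
(`JEN` with `r = 0`), union bound. -/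
def StaStmt : Prop := ∀ (X : Type) [NormedAddCommGroup X] [NormedSpace ℝ X] (x : ℕ → ℤ → X),
  IsT x → ∀ (t n : ℕ) (c : Fin t → ℤ) (κ ε : ℝ), 0 < κ → 0 < ε → ∃ m₀, ∀ m, m₀ ≤ m →
    bad m (fun d => Stab x κ (n + m) d) c ≤ ε

/-- HHB: `0 ≤ hh ≤ 1`, `hh` is a supermartingale, and `hh` is attained up to `ε` by every `u` at
all large depths. (`sup_m av1 m ‖x - u‖²` is a monotone limit by JEN and TOW; it is the average of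
the same quantity of the descendants.) -/
def HhbStmt : Prop := ∀ (X : Type) [NormedAddCommGroup X] [NormedSpace ℝ X] (x : ℕ → ℤ → X),
  IsT x → (∀ n j, 0 ≤ hh x n j ∧ hh x n j ≤ 1) ∧ (∀ n m j, av1 m (hh x (n + m)) j ≤ hh x n j) ∧
    ∀ n j (u : X) (ε : ℝ), 0 < ε → ∃ m, hh x n j - ε ≤ av1 m (fun k => ‖x (n + m) k - u‖ ^ 2) j

/-- HLK: most deep descendants are stable for the oscillation (SUP with `t = 1` and
`F n c = (1 - hh x n (c 0)) ^ 2`; `0 ≤ 1 - hh` is a submartingale, so is its square). -/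
def HlkStmt : Prop := ∀ (X : Type) [NormedAddCommGroup X] [NormedSpace ℝ X] (x : ℕ → ℤ → X),
  IsT x → ∀ (n : ℕ) (j : ℤ) (κ ε : ℝ), 0 < κ → 0 < ε → ∃ m₀, ∀ m, m₀ ≤ m →
    bad1 m (fun d => Stw x κ (n + m) d) j ≤ ε

/-- HPE: the oscillation persists: `w = 1 - hh`, `av1 (w' - w)² ≤ av1 w'² - w² ≤ κ`
(`av1 w' ≥ w ≥ 0`), Chebyshev. -/
def HpeStmt : Prop := ∀ (X : Type) [NormedAddCommGroup X] [NormedSpace ℝ X] (x : ℕ → ℤ → X),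
  IsT x → ∀ (n m : ℕ) (j : ℤ) (κ θ : ℝ), 0 < θ → Stw x κ n j →
    bad1 m (fun d => hh x n j - θ ≤ hh x (n + m) d) j ≤ κ / θ ^ 2

/-! ### one splitting -/

/-- LBD: lower bound. Let `|a i|` be maximal, `a ≠ 0`; scale to `|a i| = 1`. With `HHB` for
`u = - a i * ∑_{l ≠ i} a l x(c l)` and `ISO` (`Z l k = a l • x (n + m) k`, `JEN`):
`δ² - ε ≤ av1 m ‖x - u‖² ≤ av m ‖J‖² ≤ ‖J x n c a‖² + κ`. -/
def LbdStmt : Prop := ∀ (X : Type) [NormedAddCommGroup X] [NormedSpace ℝ X] (x : ℕ → ℤ → X),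
  IsT x → ∀ (t n : ℕ) (c : Fin t → ℤ) (κ δ : ℝ), 0 < δ → κ ≤ δ ^ 2 / 2 → Stab x κ n c →
    (∀ i, δ ^ 2 ≤ hh x n (c i)) → ∀ (a : Fin t → ℝ) (i : Fin t), δ / 2 * |a i| ≤ ‖J x n c a‖

/-- RDO: the lower inequality is likely. Net: `α ∈ β (ℤ + 1/2)`, `|α| ≤ 3` (so `|α i| ≥ β / 2`);
for each such `α` let `f` norm `J x n c α` (`exists_dual_vector''`). `Stab` (for `α / 3`) and
`f (av J) = ‖J x n c α‖` give `av m (f (J x _ d α) - ‖J x n c α‖)² ≤ 9 κ`, ISO in `V = ℝ`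
(`Z l k = α l * (f (x (n + m) k) - f (x n (c l)))`) gives
`av1 m (f (x (n + m) k) - f (x n (c i)))² ≤ 36 κ / β²`, Chebyshev and `MAR`: with high probability
`|f (x (n + m) (d i)) - f (x n (c (pr s i)))| ≤ η'` for all `α` of the net and all
`i : Fin (t + 1)`. Then `f (J x _ d a) ≥ f (J x n c (Rr s a)) - (t + 1) η'`, and `Rr s a` is within
`β / 2` of a point of the net in each coordinate. -/
def RdoStmt : Prop := ∀ (X : Type) [NormedAddCommGroup X] [NormedSpace ℝ X] (t : ℕ) (s : Fin t)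
  (η : ℝ), 0 < η → ∃ κ : ℝ, 0 < κ ∧ ∀ (x : ℕ → ℤ → X) (n : ℕ) (c : Fin t → ℤ), IsT x →
    Stab x κ n c → ∀ m, bad m (fun d => Lo x s η n c (n + m) d) (c ∘ pr s) ≤ η

/-- RUP: the upper inequality is likely. For `b = 0, 1` let `e b : Fin t → Fin (t + 1)` be
`castSucc`, resp. `castSucc` but `s ↦ last`; `(c ∘ pr s) ∘ e b = c`, and
`J x _ d (io s a) = (J x _ (d ∘ e 0) a + J x _ (d ∘ e 1) a) / 2`. For `a` in a net, `MAR`, `JEN` and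
`Stab`: `av (‖J x _ (d ∘ e b) a‖ - ‖J x n c a‖)² ≤ κ`; Chebyshev. -/
def RupStmt : Prop := ∀ (X : Type) [NormedAddCommGroup X] [NormedSpace ℝ X] (t : ℕ) (s : Fin t)
  (η : ℝ), 0 < η → ∃ κ : ℝ, 0 < κ ∧ ∀ (x : ℕ → ℤ → X) (n : ℕ) (c : Fin t → ℤ), IsT x →
    Stab x κ n c → ∀ m, bad m (fun d => Up x s η n c (n + m) d) (c ∘ pr s) ≤ η

/-- POT: the potential is a supermartingale for the splitting. With `e b` as in RUP:
`‖J (io s θ) - r‖ ≤ (‖J (d ∘ e 0) θ - r‖ + ‖J (d ∘ e 1) θ - r‖) / 2`, `MAR`, `TOW`; sup and finite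
average commute (monotone). The first part: the `sup` is a monotone bounded one, by JEN, TOW. -/
def PotStmt : Prop := ∀ (X : Type) [NormedAddCommGroup X] [NormedSpace ℝ X] (x : ℕ → ℤ → X),
  IsT x → ∀ (t : ℕ) (s : Fin t) (θ : Fin t → ℝ) (r : X) (n : ℕ) (c : Fin t → ℤ),
    ‖J x n c θ - r‖ ≤ QP x θ r n c ∧
    ∀ m, av m (fun d => QP x (io s θ) r (n + m) d) (c ∘ pr s) ≤ QP x θ r n c

/-- STP: one step. `STA` and `HLK` (for `c ∘ pr s`, depth `m` large; `MAR` for the single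
coordinates), `HPE`, `RDO`, `RUP`: the union of the bad events has proportion `≤ η'` with
`1 / (1 - η') ≤ 1 + η`; a descendant outside of it with `Φ ≤ Φ₀ / (1 - η')` exists. -/
def StpStmt : Prop := ∀ (X : Type) [NormedAddCommGroup X] [NormedSpace ℝ X] (t : ℕ) (s : Fin t)
  (η : ℝ), 0 < η → ∃ κ : ℝ, 0 < κ ∧ ∀ (x : ℕ → ℤ → X) (n : ℕ) (c : Fin t → ℤ), IsT x →
    Stab x κ n c → (∀ i, Stw x κ n (c i)) → ∀ (κ' : ℝ), 0 < κ' →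
    ∀ (Φ : ℕ → (Fin (t + 1) → ℤ) → ℝ) (Φ₀ : ℝ), (∀ n d, 0 ≤ Φ n d) →
      (∀ m, av m (Φ (n + m)) (c ∘ pr s) ≤ Φ₀) →
      ∃ (m : ℕ) (d : Fin (t + 1) → ℤ), Stab x κ' (n + m) d ∧ (∀ i, Stw x κ' (n + m) (d i)) ∧
        (∀ i, hh x n (c (pr s i)) - η ≤ hh x (n + m) (d i)) ∧ Lo x s η n c (n + m) d ∧
        Up x s η n c (n + m) d ∧ Φ (n + m) d ≤ (1 + η) * Φ₀

/-! ### the start -/

/-- the difference quotients of a curve -/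
def dq {X : Type} [NormedAddCommGroup X] [NormedSpace ℝ X] (f : ℝ → X) (n : ℕ) (j : ℤ) : X :=
  (2 : ℝ) ^ n • (f (((j : ℝ) + 1) / 2 ^ n) - f ((j : ℝ) / 2 ^ n))

/-- CAU: vanishing oscillation gives the Cauchy property in the mean. Take `m` with
`av1 m (hh x m) j ≤ ε'`, for each descendant `k` at depth `m` a vector `u k` with
`sup_q av1 q ‖x (m + q) - u k‖² ≤ hh x m k + ε'`; then
`‖x (m+p+q) - x (m+p)‖² ≤ 2 ‖x (m+p+q) - u‖² + 2 ‖x (m+p) - u‖²`, average, `TOW`, and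
`(av1 g)² ≤ av1 g²`. (`k / 2 ^ q` is the ancestor.) -/
def CauStmt : Prop := ∀ (X : Type) [NormedAddCommGroup X] [NormedSpace ℝ X] (x : ℕ → ℤ → X),
  IsT x → ∀ j : ℤ, (∀ ε : ℝ, 0 < ε → ∃ m, av1 m (hh x m) j ≤ ε) →
    ∀ ε : ℝ, 0 < ε → ∃ m, ∀ p q : ℕ,
      av1 (m + p + q) (fun k => ‖x (m + p + q) k - x (m + p) (k / 2 ^ q)‖) j ≤ ε

/-- LEB: the Cauchy property in the mean gives differentiability almost everywhere. The step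
functions `M n t = dq f n ⌊2 ^ n t⌋` are Cauchy in `L¹ (j, j + 1)`, let `g` be the limit;
`∫_j^b M n = f b - f j` for `b` dyadic of level `≤ n`, so `f b - f j = ∫_j^b g` for all dyadic `b`
in `[j, j+1]`, hence for all `b`; `LocallyIntegrable.ae_hasDerivAt_integral`. -/
def LebStmt : Prop := ∀ (X : Type) [NormedAddCommGroup X] [NormedSpace ℝ X] [CompleteSpace X]
  (f : ℝ → X), LipschitzWith 1 f → ∀ j : ℤ,
    (∀ ε : ℝ, 0 < ε → ∃ m, ∀ p q : ℕ,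
      av1 (m + p + q) (fun k => ‖dq f (m + p + q) k - dq f (m + p) (k / 2 ^ q)‖) j ≤ ε) →
    ∀ᵐ t : ℝ, t ∈ Set.Ioo (j : ℝ) (j + 1) → DifferentiableAt ℝ f t

/-- NOD: a good node. `av1 m (hh x m) j ≥ h` for all `m`, `hh ≤ 1`, so at least the proportion
`h / 2` of the descendants of depth `m` has `hh ≥ h / 2`; `STA` (`t = 1`) and `HLK` with
`ε = h / 8`. -/
def NodStmt : Prop := ∀ (X : Type) [NormedAddCommGroup X] [NormedSpace ℝ X] (x : ℕ → ℤ → X),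
  IsT x → ∀ (j : ℤ) (h : ℝ), 0 < h → (∀ m, h ≤ av1 m (hh x m) j) → ∀ κ : ℝ, 0 < κ →
    ∃ (n : ℕ) (c : Fin 1 → ℤ), Stab x κ n c ∧ (∀ i, Stw x κ n (c i)) ∧ ∀ i, h / 2 ≤ hh x n (c i)

/-! ### the recursion -/

/-- the leaf `sc (τ + 1)` as an element of `Fin (τ + 1)` (the stage `τ` has `τ + 1` leaves) -/
def sF (τ : ℕ) : Fin (τ + 1) :=
  ⟨sc (τ + 1), by
    have : 0 < 2 ^ Nat.log 2 (τ + 1) := by positivity
    unfold sc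
    omega⟩

/-- the level (depth in the tree) of the leaf `i` at the time `t` -/
def lev (t i : ℕ) : ℕ := if i < sc t ∨ 2 ^ Nat.log 2 t ≤ i then Nat.log 2 t + 1 else Nat.log 2 t

/-- the weights of the leaves below the node `(k₀, j₀)` at the time `t` -/
def wg (t k₀ j₀ : ℕ) : ℕ → ℝ := fun i =>
  if i % 2 ^ k₀ = j₀ then ((1 : ℝ) / 2) ^ (lev t i - k₀) else 0

/-- WGT: the weights are compatible with the splitting. -/
def WgtStmt : Prop :=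
  (∀ k k₀ j₀ i : ℕ, i < 2 ^ k → wg (2 ^ k) k₀ j₀ i = wt k k₀ j₀ i) ∧
  (∀ t k₀ j₀ i : ℕ, 1 ≤ t → k₀ ≤ Nat.log 2 t → i < t + 1 →
    II t (wg t k₀ j₀) i = wg (t + 1) k₀ j₀ i) ∧
  ∀ (τ k₀ j₀ : ℕ), k₀ ≤ Nat.log 2 (τ + 1) →
    (fun i : Fin (τ + 1 + 1) => wg (τ + 1 + 1) k₀ j₀ i) =
      io (sF τ) (fun i : Fin (τ + 1) => wg (τ + 1) k₀ j₀ i)

/-- the potential of the stage `τ` (with the references `ref k₀ j₀`) -/
def Ph {X : Type} [NormedAddCommGroup X] [NormedSpace ℝ X] (x : ℕ → ℤ → X) (K τ : ℕ)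
    (ref : ℕ → ℕ → X) (n : ℕ) (c : Fin (τ + 1) → ℤ) : ℝ :=
  ∑ k₀ ∈ range (K + 1), ∑ j₀ ∈ range (2 ^ k₀), ((1 : ℝ) / 4) ^ k₀ *
    QP x (fun i => wg (τ + 1) k₀ j₀ i) (ref k₀ j₀) n c

/-- PHB: the potential at the reference times `2 ^ K`. The weight `wg (2 ^ K) k₀ j₀` is
`(1/2)^(K - k₀)` on the `2 ^ (K - k₀)` leaves `i = j₀ + 2 ^ k₀ * l` and `0` elsewhere; `MAR` (injective
`e l = j₀ + 2 ^ k₀ * l`) reduces `QP` to the configuration `c ∘ e` of size `2 ^ (K - k₀)`, `Ty` gives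
`≤ M γ ^ (K - k₀)`; so `Ph ≤ ∑_{k₀ ≤ K} 2 ^ k₀ 4 ^ (- k₀) M γ ^ (K - k₀)`. -/
def PhbStmt : Prop := ∀ (M γ : ℝ), 0 ≤ M → 0 < γ → γ < 1 →
  ∃ M' ρ : ℝ, 0 ≤ M' ∧ 0 < ρ ∧ ρ < 1 ∧
    ∀ (X : Type) [NormedAddCommGroup X] [NormedSpace ℝ X] (x : ℕ → ℤ → X), IsT x → Ty x M γ →
    ∀ (K τ : ℕ), τ + 1 = 2 ^ K → ∀ (n : ℕ) (c : Fin (τ + 1) → ℤ),
      Ph x K τ (fun k₀ j₀ => J x n c (fun i => wg (τ + 1) k₀ j₀ i)) n c ≤ M' * ρ ^ K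

/-- RUF: the run. State at the stage `τ` (size `τ + 1`, `K = log₂ (τ + 1)`): `n, c, ref` with
`Stab κ_τ`, `Stw κ_τ` (`κ_τ` = the `κ` of `STP` for the size `τ + 1`, `s = sF τ`, `η_τ`, and at most
the given `kk τ`), `hh ≥ h (1/2 + 1/2^(τ+2))...` (loose `η_τ` in each step, `∑ η_τ ≤ h / 2`),
`Ph x K τ ref n c ≤ (∏_{2^K ≤ τ'+1 < τ+1} (1 + η_τ')) M ρ ^ K`. The step: `STP` with
`Φ = Ph x K (τ + 1) ref`, `POT` and `WGT` for the hypothesis on `Φ`; if `τ + 2 = 2 ^ (K + 1)` then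
`‖J x n' c' (wt (K + 1)) - ref‖ ≤ 4 ^ k₀ Ph` is the movement and `ref` is replaced (`PHB`).
`∏ (1 + η) ≤ 2`. -/
def RufStmt : Prop := ∀ (X : Type) [NormedAddCommGroup X] [NormedSpace ℝ X]
  (x : ℕ → ℤ → X), IsT x → ∀ (M₀ γ : ℝ), 0 ≤ M₀ → 0 < γ → γ < 1 → Ty x M₀ γ → ∀ (h : ℝ), 0 < h →
    (∀ κ : ℝ, 0 < κ → ∃ (n : ℕ) (c : Fin 1 → ℤ), Stab x κ n c ∧ (∀ i, Stw x κ n (c i)) ∧
      ∀ i, h ≤ hh x n (c i)) →
    ∀ (η kk : ℕ → ℝ), (∀ τ, 0 < η τ) → (∀ τ, 0 < kk τ) →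
    ∃ (M ρ : ℝ) (n : ℕ → ℕ) (c : (τ : ℕ) → Fin (τ + 1) → ℤ), 0 < ρ ∧ ρ < 1 ∧
      (∀ τ, Stab x (kk τ) (n τ) (c τ)) ∧ (∀ τ i, h / 2 ≤ hh x (n τ) (c τ i)) ∧
      (∀ τ, Lo x (sF τ) (η τ) (n τ) (c τ) (n (τ + 1)) (c (τ + 1))) ∧
      (∀ τ, Up x (sF τ) (η τ) (n τ) (c τ) (n (τ + 1)) (c (τ + 1))) ∧
      ∀ k k₀ j₀ : ℕ, k₀ ≤ k → j₀ < 2 ^ k₀ →
        ‖J x (n (2 ^ (k + 1) - 1)) (c (2 ^ (k + 1) - 1)) (fun i => wt (k + 1) k₀ j₀ i) -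
          J x (n (2 ^ k - 1)) (c (2 ^ k - 1)) (fun i => wt k k₀ j₀ i)‖ ≤ M * 4 ^ k₀ * ρ ^ k

/-- RUC: from the run to the system: `v (τ + 1) i = x (n τ) (c τ i)`. `LBD` turns `Lo`, `Up` into
the multiplicative inequalities (scale `a` to `|a|_∞ = 1`), with `kk τ = δ² / 2`,
`η τ = min (ε (τ + 1) * δ / 2) ..`, `δ² = h / 2`. -/
def RucStmt : Prop := ∀ (X : Type) [NormedAddCommGroup X] [NormedSpace ℝ X]
  (x : ℕ → ℤ → X), IsT x → ∀ (M₀ γ : ℝ), 0 ≤ M₀ → 0 < γ → γ < 1 → Ty x M₀ γ → ∀ (h : ℝ), 0 < h →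
    (∀ κ : ℝ, 0 < κ → ∃ (n : ℕ) (c : Fin 1 → ℤ), Stab x κ n c ∧ (∀ i, Stw x κ n (c i)) ∧
      ∀ i, h ≤ hh x n (c i)) →
    ∀ (ε : ℕ → ℝ), (∀ t, 0 < ε t) →
    ∃ (v : ℕ → ℕ → X) (δ M ρ : ℝ), 0 < δ ∧ 0 < ρ ∧ ρ < 1 ∧ Sys v δ ε M ρ

/-! ### the limit -/

/-- LIM: the limit tree `Y k j = lim_K L v (2 ^ K) (wt K k j)` and the norm equivalence.
(`a = ∑ a i single i`; the iterated `II` of `single i` from the time `t` to `2 ^ K` is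
`wt K (lev t i) i`.) -/
def LimStmt : Prop := ∀ (X : Type) [NormedAddCommGroup X] [NormedSpace ℝ X] [CompleteSpace X]
  (v : ℕ → ℕ → X) (δ M ρ P : ℝ) (ε : ℕ → ℝ), 0 < ρ → ρ < 1 → (∀ t, 0 < ε t) →
    (∀ t T : ℕ, ∏ i ∈ Ico t T, (1 + ε i) ≤ P) → Sys v δ ε M ρ →
    ∃ Y : ℕ → ℕ → X,
      (∀ k j, j < 2 ^ k → ‖Y k j‖ ≤ 1 ∧
        Y k j = (2 : ℝ)⁻¹ • (Y (k + 1) j + Y (k + 1) (j + 2 ^ k))) ∧
      ∀ (t : ℕ) (a : ℕ → ℝ), 1 ≤ t → ‖L v t a‖ ≤ P * ‖∑ i ∈ range t, a i • Y (lev t i) i‖ ∧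
        ‖∑ i ∈ range t, a i • Y (lev t i) i‖ ≤ P * ‖L v t a‖

/-- the basis: `Y 0 0`, and the difference of the two new leaves for the splitting at the time
`t ≥ 1` -/
def bs {X : Type} [NormedAddCommGroup X] (Y : ℕ → ℕ → X) (t : ℕ) : X :=
  if t = 0 then Y 0 0 else Y (Nat.log 2 t + 1) (sc t) - Y (Nat.log 2 t + 1) t

/-- BAS: the basic sequence and the separation. `∑_{i<t} β i bs i = ∑_{i<t} (A t β) i Y (lev t i) i`
with `A 1 β = β`, `A (t+1) β = II t (A t β) + β t (single (sc t) - single t)`,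
`RR t (A (t+1) β) = A t β` on `range t`; `Sys.lo` `t` to `t'`. Separation: `Sys.sep` for
`single (sc t) - single t` at the time `t + 1`. -/
def BasStmt : Prop := ∀ (X : Type) [NormedAddCommGroup X] [NormedSpace ℝ X]
  (v : ℕ → ℕ → X) (δ M ρ P : ℝ) (ε : ℕ → ℝ) (Y : ℕ → ℕ → X), 0 < δ → (∀ t, 0 < ε t) →
    (∀ t T : ℕ, ∏ i ∈ Ico t T, (1 + ε i) ≤ P) → Sys v δ ε M ρ →
    (∀ k j, j < 2 ^ k → Y k j = (2 : ℝ)⁻¹ • (Y (k + 1) j + Y (k + 1) (j + 2 ^ k))) →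
    (∀ (t : ℕ) (a : ℕ → ℝ), 1 ≤ t → ‖L v t a‖ ≤ P * ‖∑ i ∈ range t, a i • Y (lev t i) i‖ ∧
        ‖∑ i ∈ range t, a i • Y (lev t i) i‖ ≤ P * ‖L v t a‖) →
    (∀ (β : ℕ → ℝ) (m n : ℕ), m ≤ n →
      ‖∑ i ∈ range m, β i • bs Y i‖ ≤ P ^ 3 * ‖∑ i ∈ range n, β i • bs Y i‖) ∧
    (∀ t, bs Y t ≠ 0) ∧
    (∀ k j, j < 2 ^ k → Y k j ∈ Submodule.span ℝ (Set.range (bs Y))) ∧
    ∀ k j, j < 2 ^ k → δ / P ≤ ‖Y (k + 1) j - Y (k + 1) (j + 2 ^ k)‖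

/-- SCH: a basic sequence is a basis of its closed span. -/
def SchStmt : Prop := ∀ (X : Type) [NormedAddCommGroup X] [NormedSpace ℝ X] [CompleteSpace X]
  (e : ℕ → X) (P : ℝ), (∀ i, e i ≠ 0) →
    (∀ (a : ℕ → ℝ) (m n : ℕ), m ≤ n →
      ‖∑ i ∈ range m, a i • e i‖ ≤ P * ‖∑ i ∈ range n, a i • e i‖) →
    ∀ y ∈ (Submodule.span ℝ (Set.range e)).topologicalClosure, ∃! a : ℕ → ℝ,
      Tendsto (fun n => ∑ i ∈ range n, a i • e i) atTop (𝓝 y)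

/-- CUR: a bounded separated dyadic tree gives a Lipschitz curve which is nowhere differentiable on
`(0, ∞)`: `g (j / 2 ^ n) = 2⁻ⁿ ∑_{i<j} y n i`. -/
def CurStmt : Prop := ∀ (X : Type) [NormedAddCommGroup X] [NormedSpace ℝ X] [CompleteSpace X]
  (Z : Submodule ℝ X) (y : ℕ → ℕ → X) (δ : ℝ), IsClosed (Z : Set X) → 0 < δ →
    (∀ n j, y n j ∈ Z) → (∀ n j, ‖y n j‖ ≤ 1) →
    (∀ n j, y n j = (2 : ℝ)⁻¹ • (y (n + 1) (2 * j) + y (n + 1) (2 * j + 1))) →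
    (∀ n j, δ ≤ ‖y (n + 1) (2 * j) - y (n + 1) (2 * j + 1)‖) →
    ∃ g : ℝ → X, (∀ t, g t ∈ Z) ∧ LipschitzWith 1 g ∧
      (∀ t : ℝ, 0 < t → ¬ DifferentiableAt ℝ g t) ∧
      ∀ n j : ℕ, (2 : ℝ) ^ n • (g (((j : ℝ) + 1) / 2 ^ n) - g ((j : ℝ) / 2 ^ n)) = y n j

/-- bit reversal -/
def rev : ℕ → ℕ → ℕ
  | 0, _ => 0
  | n + 1, j => rev n (j / 2) + j % 2 * 2 ^ n

end Pool.Agent.BC
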